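import Mathlib

/-!
# The category of cosheaves of abelian groups on a topological space need not be abelian

Let `Ω` be a well-ordered set of order type `ω₁` and `X = Ω ∪ {∞}`. A set `U` is open if `U ∩ Ω` is
upward closed and if `∞ ∈ U` implies that `U ∩ Ω` is not empty. For an open set `U` let `I U` be the
set of all injections `Ω \ U → ℕ` whose image has an infinite complement, and let `A(U)` be the free
abelian group on `I U`; restriction of injections makes `A` a precosheaf. Let `B(U)` be `A(U)` if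
`∞ ∉ U` and `0` if `∞ ∈ U`. Both are cosheaves and the projection `A → B` is an epimorphism which is
not an isomorphism. It is a monomorphism of cosheaves: a cosheaf map `C → A` which is zero in `B`
gives, for `c ∈ C(U)` with `∞ ∈ U`, a compatible family of elements of the groups `A(V)`, `V` an
open neighbourhood of `∞` in `U`. If it is not zero then the supports of its members have the same
number of elements for small `V` and give a compatible family of injections `Ω \ V → ℕ`, that is, an
injection `Ω → ℕ`.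
-/

set_option autoImplicit false

open CategoryTheory TopologicalSpace DirectSum

universe u

namespace Pool.Agent.Results.MP_c909fd_al.CosheavesNotAbelian

section Defs

variable {X : TopCat.{u}}

/-- For a precosheaf `A` and a family `U i` of open sets, the map
`⨁ i, A(U i) → A(⋃ i, U i)`. -/
noncomputable def sumMap (A : Opens X ⥤ AddCommGrpCat.{u}) {ι : Type u} (U : ι → Opens X) :
    (⨁ i, A.obj (U i)) →+ A.obj (⨆ i, U i) :=
  letI := Classical.decEq ι
  DirectSum.toAddMonoid fun i => (A.map (homOfLE (le_iSup U i))).hom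

/-- For a precosheaf `A` and a family `U i` of open sets, the difference
`⨁ (i, j), A(U i ∩ U j) → ⨁ i, A(U i)` of the two maps induced by the inclusions
`U i ∩ U j ⊆ U i` and `U i ∩ U j ⊆ U j`. -/
noncomputable def diffMap (A : Opens X ⥤ AddCommGrpCat.{u}) {ι : Type u} (U : ι → Opens X) :
    (⨁ p : ι × ι, A.obj (U p.1 ⊓ U p.2)) →+ ⨁ i, A.obj (U i) :=
  letI := Classical.decEq ι
  DirectSum.toAddMonoid fun p =>
    (DirectSum.of (fun i => A.obj (U i)) p.1).comp (A.map (homOfLE inf_le_left)).hom -
    (DirectSum.of (fun i => A.obj (U i)) p.2).comp (A.map (homOfLE inf_le_right)).hom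

/-- A precosheaf `A` of abelian groups on `X` is a cosheaf if for every family `U i` of open sets
with union `U` the sequence `⨁ (i, j), A(U i ∩ U j) → ⨁ i, A(U i) → A(U) → 0` is exact. -/
def IsCosheaf (A : Opens X ⥤ AddCommGrpCat.{u}) : Prop :=
  ∀ (ι : Type u) (U : ι → Opens X),
    Function.Exact (diffMap A U) (sumMap A U) ∧ Function.Surjective (sumMap A U)

variable (X) in
/-- The category of cosheaves of abelian groups on `X`: the full subcategory of the category of
precosheaves whose objects are the cosheaves. -/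
abbrev Cosheaf : Type (u + 1) :=
  ObjectProperty.FullSubcategory (fun A : Opens X ⥤ AddCommGrpCat.{u} => IsCosheaf A)

end Defs

section General

variable {X : TopCat.{u}} (A : Opens X ⥤ AddCommGrpCat.{u})

/-- The map of a precosheaf for an inclusion. -/
def res {U V : Opens X} (h : U ≤ V) : A.obj U →+ A.obj V := (A.map (homOfLE h)).hom

lemma res_res {U V W : Opens X} (h : U ≤ V) (h' : V ≤ W) (a : A.obj U) :
    res A h' (res A h a) = res A (h.trans h') a := by
  have := A.map_comp (homOfLE h) (homOfLE h')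
  have h2 := congrArg (fun f => f.hom a) this
  simpa [res] using h2.symm

variable {A}

/-- A criterion for being a cosheaf. -/
lemma isCosheaf_of_pivot
    (h : ∀ (ι : Type u) (U : ι → Opens X), (Subsingleton (A.obj (⨆ i, U i)) ∧
      ∀ i, Subsingleton (A.obj (U i))) ∨
      ∃ i₀, (∀ i, Function.Surjective (res A (inf_le_left : U i ⊓ U i₀ ≤ U i))) ∧
        Function.Bijective (res A (le_iSup U i₀))) : IsCosheaf A := by
  classical
  intro ι U
  have hsum : ∀ i (a : A.obj (U i)), sumMap A U (DirectSum.of (fun i => A.obj (U i)) i a) =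
      res A (le_iSup U i) a := by
    intro i a
    simp only [sumMap]
    rw [Subsingleton.elim (Classical.decEq ι) (fun a b => inferInstance)]
    rw [DirectSum.toAddMonoid_of]
    rfl
  have hdiff : ∀ i j (a : A.obj (U i ⊓ U j)),
      diffMap A U (DirectSum.of (fun p : ι × ι => A.obj (U p.1 ⊓ U p.2)) (i, j) a) =
      DirectSum.of (fun i => A.obj (U i)) i (res A inf_le_left a) -
      DirectSum.of (fun i => A.obj (U i)) j (res A inf_le_right a) := by
    intro i j a
    simp only [diffMap]
    rw [Subsingleton.elim (Classical.decEq ι) (fun a b => inferInstance)]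
    rw [DirectSum.toAddMonoid_of]
    rfl
  have hzero : ∀ z, sumMap A U (diffMap A U z) = 0 := by
    intro z
    induction z using DirectSum.induction_on with
    | zero => simp
    | add x y hx hy => rw [map_add, map_add, hx, hy, add_zero]
    | of p a =>
      obtain ⟨i, j⟩ := p
      rw [hdiff, map_sub, hsum, hsum, res_res, res_res, sub_self]
  rcases h ι U with ⟨h1, h2⟩ | ⟨i₀, h1, h2⟩
  · have hz : ∀ z : ⨁ i, A.obj (U i), z = 0 := by
      intro z
      apply DFinsupp.ext
      intro i
      exact (h2 i).elim _ _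
    refine ⟨fun z => ⟨fun _ => ⟨0, ?_⟩, fun _ => h1.elim _ _⟩, fun y => ⟨0, h1.elim _ _⟩⟩
    rw [hz z, map_zero]
  · refine ⟨fun z => ⟨fun hz => ?_, ?_⟩, fun y => ?_⟩
    · -- every element is congruent to one concentrated in `i₀`
      have key : ∀ z : ⨁ i, A.obj (U i), ∃ w, ∃ b : A.obj (U i₀),
          z = diffMap A U w + DirectSum.of (fun i => A.obj (U i)) i₀ b := by
        intro z
        induction z using DirectSum.induction_on with
        | zero => exact ⟨0, 0, by simp⟩
        | add x y hx hy =>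
          obtain ⟨w, b, hx⟩ := hx
          obtain ⟨w', b', hy⟩ := hy
          refine ⟨w + w', b + b', ?_⟩
          rw [hx, hy, map_add, map_add]
          abel
        | of i a =>
          obtain ⟨a', ha'⟩ := h1 i a
          refine ⟨DirectSum.of (fun p : ι × ι => A.obj (U p.1 ⊓ U p.2)) (i, i₀) a',
            res A inf_le_right a', ?_⟩
          rw [hdiff, ha']
          abel
      obtain ⟨w, b, rfl⟩ := key z
      rw [map_add, hzero, zero_add, hsum] at hz
      have hb : b = 0 := h2.1 (by rw [hz, map_zero])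
      exact ⟨w, by rw [hb, map_zero, add_zero]⟩
    · rintro ⟨w, rfl⟩
      exact hzero w
    · obtain ⟨b, hb⟩ := h2.2 y
      exact ⟨DirectSum.of (fun i => A.obj (U i)) i₀ b, by rw [hsum, hb]⟩

end General

section TwoOpens

variable {X : TopCat.{0}} {C : Opens X ⥤ AddCommGrpCat.{0}}

/-- The cosheaf condition for two open sets. -/
lemma two_opens (hC : IsCosheaf C) {U V W : Opens X} (hV : V ≤ U) (hW : W ≤ U)
    (hU : U ≤ V ⊔ W) :
    (∀ c : C.obj U, ∃ (c₁ : C.obj V) (c₂ : C.obj W), c = res C hV c₁ + res C hW c₂) ∧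
    (∀ (c₁ : C.obj V) (c₂ : C.obj W), res C hV c₁ + res C hW c₂ = 0 →
      ∃ w : C.obj (V ⊓ W), c₁ = res C inf_le_left w) := by
  classical
  let F : Bool → Opens X := fun b => cond b V W
  have hF : (⨆ b, F b) = U := by
    apply le_antisymm
    · apply iSup_le
      intro b
      cases b
      · exact hW
      · exact hV
    · refine hU.trans (sup_le (le_iSup F true) (le_iSup F false))
  obtain ⟨hex, hsurj⟩ := hC Bool F
  have hsum : ∀ i (a : C.obj (F i)), sumMap C F (DirectSum.of (fun i => C.obj (F i)) i a) =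
      res C (le_iSup F i) a := by
    intro i a
    simp only [sumMap]
    rw [Subsingleton.elim (Classical.decEq Bool) (fun a b => inferInstance)]
    rw [DirectSum.toAddMonoid_of]
    rfl
  have hdiff : ∀ i j (a : C.obj (F i ⊓ F j)),
      diffMap C F (DirectSum.of (fun p : Bool × Bool => C.obj (F p.1 ⊓ F p.2)) (i, j) a) =
      DirectSum.of (fun i => C.obj (F i)) i (res C inf_le_left a) -
      DirectSum.of (fun i => C.obj (F i)) j (res C inf_le_right a) := by
    intro i j a
    simp only [diffMap]
    rw [Subsingleton.elim (Classical.decEq Bool) (fun a b => inferInstance)]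
    rw [DirectSum.toAddMonoid_of]
    rfl
  have hUF : U ≤ ⨆ b, F b := hF.ge
  have hFU : (⨆ b, F b) ≤ U := hF.le
  have hid : ∀ (c : C.obj U), res C hFU (res C hUF c) = c := by
    intro c
    rw [res_res]
    have := C.map_id U
    have h2 := congrArg (fun f => f.hom c) this
    exact h2
  constructor
  · intro c
    obtain ⟨z, hz⟩ := hsurj (res C hUF c)
    have key : ∀ z : ⨁ b, C.obj (F b), ∃ (c₁ : C.obj V) (c₂ : C.obj W),
        res C hFU (sumMap C F z) = res C hV c₁ + res C hW c₂ := by
      intro z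
      induction z using DirectSum.induction_on with
      | zero => exact ⟨0, 0, by simp⟩
      | add x y hx hy =>
        obtain ⟨a, b, hx⟩ := hx
        obtain ⟨a', b', hy⟩ := hy
        refine ⟨a + a', b + b', ?_⟩
        rw [map_add, map_add, hx, hy, map_add, map_add]
        abel
      | of i a =>
        cases i
        · refine ⟨0, a, ?_⟩
          rw [hsum, res_res, map_zero, zero_add]
        · refine ⟨a, 0, ?_⟩
          rw [hsum, res_res, map_zero, add_zero]
    obtain ⟨c₁, c₂, h⟩ := key z
    rw [hz, hid] at h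
    exact ⟨c₁, c₂, h⟩
  · intro c₁ c₂ h
    have hz : sumMap C F (DirectSum.of (fun b => C.obj (F b)) true c₁ +
        DirectSum.of (fun b => C.obj (F b)) false c₂) = 0 := by
      rw [map_add, hsum, hsum]
      have h3 : res C hUF (res C hV c₁ + res C hW c₂) = 0 := by rw [h, map_zero]
      rw [map_add, res_res, res_res] at h3
      exact h3
    obtain ⟨w, hw⟩ := (hex _).1 hz
    have key : ∀ w : ⨁ p : Bool × Bool, C.obj (F p.1 ⊓ F p.2), ∃ w' : C.obj (V ⊓ W),
        diffMap C F w = DirectSum.of (fun b => C.obj (F b)) true (res C inf_le_left w') -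
          DirectSum.of (fun b => C.obj (F b)) false (res C inf_le_right w') := by
      intro w
      induction w using DirectSum.induction_on with
      | zero => exact ⟨0, by simp⟩
      | add x y hx hy =>
        obtain ⟨a, hx⟩ := hx
        obtain ⟨b, hy⟩ := hy
        refine ⟨a + b, ?_⟩
        rw [map_add, hx, hy, map_add, map_add, map_add, map_add]
        abel
      | of p a =>
        obtain ⟨i, j⟩ := p
        cases i <;> cases j
        · refine ⟨0, ?_⟩
          rw [hdiff, map_zero, map_zero, map_zero, map_zero, sub_zero]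
          exact sub_self _
        · refine ⟨- res C (inf_comm W V).le a, ?_⟩
          rw [hdiff, map_neg, map_neg, map_neg, map_neg, res_res, res_res]
          abel
        · refine ⟨a, ?_⟩
          rw [hdiff]
        · refine ⟨0, ?_⟩
          rw [hdiff, map_zero, map_zero, map_zero, map_zero, sub_zero]
          exact sub_self _
    obtain ⟨w', hw'⟩ := key w
    rw [hw'] at hw
    refine ⟨w', ?_⟩
    have h4 := congrArg (fun z : ⨁ b, C.obj (F b) => z true) hw
    simp only [DirectSum.sub_apply, DirectSum.add_apply] at h4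
    rw [DirectSum.of_eq_same, DirectSum.of_eq_same,
      DirectSum.of_eq_of_ne (β := fun b => C.obj (F b)) _ _ _ (by decide),
      DirectSum.of_eq_of_ne (β := fun b => C.obj (F b)) _ _ _ (by decide), sub_zero, add_zero] at h4
    exact h4.symm

end TwoOpens

section Space

/-- The well-ordered set of order type `ω₁`. -/
abbrev Om : Type := (Cardinal.aleph 1).ord.ToType

lemma countable_Iio (a : Om) : (Set.Iio a).Countable := by
  rw [← Cardinal.le_aleph0_iff_set_countable, ← Order.lt_succ_iff, Cardinal.succ_aleph0]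
  have h := Cardinal.mk_Iio_lt a (by rw [Cardinal.mk_ord_toType, Ordinal.type_toType])
  rwa [Cardinal.mk_ord_toType] at h

lemma not_countable : ¬ (Set.univ : Set Om).Countable := by
  rw [← Cardinal.le_aleph0_iff_set_countable, ← Order.lt_succ_iff, Cardinal.succ_aleph0,
    Cardinal.mk_univ, Cardinal.mk_ord_toType]
  exact lt_irrefl _

/-- A countable family in `Om` is bounded. -/
lemma exists_bound (g : ℕ → Om) : ∃ b, ∀ n, g n ≤ b := by
  by_contra h
  push Not at h
  apply not_countable
  refine (Set.countable_iUnion fun n => countable_Iio (g n)).mono ?_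
  intro x _
  obtain ⟨n, hn⟩ := h x
  exact Set.mem_iUnion.2 ⟨n, hn⟩

lemma exists_gt' (a : Om) : ∃ b, a < b := by
  by_contra h
  push Not at h
  apply not_countable
  refine ((countable_Iio a).union (Set.countable_singleton a)).mono ?_
  intro x _
  rcases (h x).lt_or_eq with h1 | h1
  · exact Or.inl h1
  · exact Or.inr h1

instance : Nonempty Om := by
  by_contra h
  rw [not_nonempty_iff] at h
  exact not_countable (Set.countable_univ)

/-- The set underlying the space. -/
def Pt : Type := Option Om

instance : TopologicalSpace Pt where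
  IsOpen s := (∀ a b : Om, (some a : Option Om) ∈ s → a ≤ b → (some b : Option Om) ∈ s) ∧
    ((none : Option Om) ∈ s → ∃ a : Om, (some a : Option Om) ∈ s)
  isOpen_univ := ⟨fun _ _ _ _ => trivial, fun _ => ⟨Classical.arbitrary Om, trivial⟩⟩
  isOpen_inter := by
    rintro s t ⟨hs, hs'⟩ ⟨ht, ht'⟩
    refine ⟨fun a b hab h => ⟨hs a b hab.1 h, ht a b hab.2 h⟩, fun h => ?_⟩
    obtain ⟨a, ha⟩ := hs' h.1
    obtain ⟨b, hb⟩ := ht' h.2
    exact ⟨max a b, hs a _ ha (le_max_left _ _), ht b _ hb (le_max_right _ _)⟩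
  isOpen_sUnion := by
    intro S hS
    refine ⟨?_, ?_⟩
    · rintro a b ⟨s, hs, ha⟩ h
      exact ⟨s, hs, (hS s hs).1 a b ha h⟩
    · rintro ⟨s, hs, h⟩
      obtain ⟨a, ha⟩ := (hS s hs).2 h
      exact ⟨a, s, hs, ha⟩

/-- The space. -/
abbrev X₀ : TopCat.{0} := TopCat.of Pt

/-- The point at infinity. -/
def inf : Pt := (none : Option Om)

/-- The points of `Om`. -/
def pt (a : Om) : Pt := (some a : Option Om)

lemma up (U : Opens X₀) {a b : Om} (h : pt a ∈ U) (hab : a ≤ b) : pt b ∈ U :=
  U.2.1 a b h hab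

lemma ne (U : Opens X₀) (h : inf ∈ U) : ∃ a, pt a ∈ U := U.2.2 h

lemma pt_cases {P : Pt → Prop} (h1 : P inf) (h2 : ∀ a, P (pt a)) (x : Pt) : P x := by
  cases x with
  | none => exact h1
  | some a => exact h2 a

/-- The neighbourhood `{∞} ∪ [b, ∞)` of `∞`. -/
def nb (b : Om) : Opens X₀ where
  carrier := {x | ∀ a, x = pt a → b ≤ a}
  is_open' := by
    refine ⟨?_, fun _ => ⟨b, ?_⟩⟩
    · intro a c ha hac d hd
      have h1 := ha a rfl
      have h2 : c = d := Option.some.inj hd
      rw [← h2]
      exact h1.trans hac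
    · intro d hd
      have h2 : b = d := Option.some.inj hd
      rw [h2]

lemma pt_mem_nb {a b : Om} : pt a ∈ nb b ↔ b ≤ a := by
  constructor
  · intro h
    exact h a rfl
  · intro h d hd
    have h2 : a = d := Option.some.inj hd
    rw [← h2]
    exact h

lemma inf_mem_nb (b : Om) : inf ∈ nb b := by
  intro d hd
  cases hd

/-- The part of an open set in `Om`. -/
def fin (U : Opens X₀) : Opens X₀ where
  carrier := {x | x ∈ U ∧ x ≠ inf}
  is_open' := by
    refine ⟨?_, fun h => absurd rfl h.2⟩
    intro a b ha hab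
    exact ⟨up U ha.1 hab, fun h => by cases h⟩

lemma inf_notMem_fin (U : Opens X₀) : inf ∉ fin U := fun h => h.2 rfl

lemma pt_mem_fin {U : Opens X₀} {a : Om} : pt a ∈ fin U ↔ pt a ∈ U :=
  ⟨fun h => h.1, fun h => ⟨h, fun h => by cases h⟩⟩

lemma fin_le (U : Opens X₀) : fin U ≤ U := fun _ h => h.1

/-- The injections `Om \ U → ℕ` with co-infinite range. -/
def Inj (U : Opens X₀) : Type :=
  {f : {a : Om // pt a ∉ U} → ℕ // Function.Injective f ∧ (Set.range f)ᶜ.Infinite}

/-- Restriction of injections. -/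
def rI {U V : Opens X₀} (h : U ≤ V) (f : Inj U) : Inj V :=
  ⟨fun a => f.1 ⟨a.1, fun ha => a.2 (h ha)⟩, by
    intro a b hab
    have := f.2.1 hab
    exact Subtype.ext (congrArg (fun x => x.1) this), by
    refine f.2.2.mono ?_
    intro n hn hn'
    obtain ⟨a, rfl⟩ := hn'
    exact hn ⟨_, rfl⟩⟩

lemma Inj_ext {U : Opens X₀} {f g : Inj U} (h : ∀ a (ha : pt a ∉ U), f.1 ⟨a, ha⟩ = g.1 ⟨a, ha⟩) :
    f = g := by
  apply Subtype.ext
  funext a
  exact h a.1 a.2

lemma rI_rI {U V W : Opens X₀} (h : U ≤ V) (h' : V ≤ W) (f : Inj U) :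
    rI h' (rI h f) = rI (h.trans h') f := rfl

lemma rI_self {U : Opens X₀} (h : U ≤ U) (f : Inj U) : rI h f = f := rfl

lemma Inj_empty {U : Opens X₀} (h : ∀ a, pt a ∉ U) : IsEmpty (Inj U) := by
  constructor
  intro f
  apply not_countable
  rw [Set.countable_univ_iff]
  have hf : Function.Injective (fun a : Om => f.1 ⟨a, h a⟩) := by
    intro a b hab
    have := f.2.1 hab
    exact congrArg (fun x => x.1) this
  exact hf.countable

/-- Restriction is surjective if the smaller open set is not empty. -/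
lemma rI_surjective {U V : Opens X₀} (h : U ≤ V) (hU : ∃ a, pt a ∈ U) :
    Function.Surjective (rI h) := by
  classical
  intro g
  obtain ⟨a₀, ha₀⟩ := hU
  have hcount : Countable {a : Om // pt a ∉ U} := by
    have : {a : Om | pt a ∉ U} ⊆ Set.Iio a₀ := by
      intro a ha
      by_contra h1
      exact ha (up U ha₀ (not_lt.1 h1))
    exact ((countable_Iio a₀).mono this).to_subtype
  obtain ⟨c, hc⟩ := hcount.exists_injective_nat
  let e : ℕ ↪ ((Set.range g.1)ᶜ : Set ℕ) := g.2.2.natEmbedding
  have he : ∀ n x, (e n : ℕ) ≠ g.1 x := by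
    intro n x hx
    exact (e n).2 ⟨x, hx.symm⟩
  have hinj : ∀ m n, (e m : ℕ) = e n → m = n := by
    intro m n hmn
    exact e.injective (Subtype.ext hmn)
  let F : {a : Om // pt a ∉ U} → ℕ := fun a =>
    if ha : pt a.1 ∉ V then g.1 ⟨a.1, ha⟩ else e (2 * c a)
  have hF1 : ∀ a (ha : pt a.1 ∉ V), F a = g.1 ⟨a.1, ha⟩ := fun a ha => dif_pos ha
  have hF2 : ∀ a (ha : ¬ pt a.1 ∉ V), F a = e (2 * c a) := fun a ha => dif_neg ha
  refine ⟨⟨F, ?_, ?_⟩, ?_⟩
  · intro a b hab
    by_cases ha : pt a.1 ∉ V <;> by_cases hb : pt b.1 ∉ V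
    · rw [hF1 a ha, hF1 b hb] at hab
      have := g.2.1 hab
      exact Subtype.ext (congrArg (fun x => x.1) this)
    · rw [hF1 a ha, hF2 b hb] at hab
      exact absurd hab.symm (he _ _)
    · rw [hF2 a ha, hF1 b hb] at hab
      exact absurd hab (he _ _)
    · rw [hF2 a ha, hF2 b hb] at hab
      apply hc
      have := hinj _ _ hab
      omega
  · have h1 : Function.Injective (fun n : ℕ => ((e (2 * n + 1) : ((Set.range g.1)ᶜ : Set ℕ)) : ℕ)) := by
      intro m n hmn
      have := hinj _ _ hmn
      omega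
    refine (Set.infinite_range_of_injective h1).mono ?_
    rintro _ ⟨n, rfl⟩ ⟨a, ha⟩
    by_cases hV : pt a.1 ∉ V
    · rw [hF1 a hV] at ha
      exact he _ _ ha.symm
    · rw [hF2 a hV] at ha
      have := hinj _ _ ha
      omega
  · apply Inj_ext
    intro a ha
    exact hF1 ⟨a, fun h' => ha (h h')⟩ ha

/-- Restriction is bijective if the two open sets have the same trace on `Om`. -/
lemma rI_bijective {U V : Opens X₀} (h : U ≤ V) (hUV : ∀ a, pt a ∈ V → pt a ∈ U) :
    Function.Bijective (rI h) := by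
  constructor
  · intro f g hfg
    apply Inj_ext
    intro a ha
    have h1 := congrArg (fun x : Inj V => x.1 ⟨a, fun h' => ha (hUV a h')⟩) hfg
    exact h1
  · intro g
    refine ⟨⟨fun a => g.1 ⟨a.1, fun h' => a.2 (hUV a.1 h')⟩, ?_, ?_⟩, rfl⟩
    · intro a b hab
      have := g.2.1 hab
      exact Subtype.ext (congrArg (fun x => x.1) this)
    · refine g.2.2.mono ?_
      rintro n hn ⟨a, rfl⟩
      exact hn ⟨_, rfl⟩

end Space

section Functors

/-- Restriction of chains of injections. -/
noncomputable def rA {U V : Opens X₀} (h : U ≤ V) : (Inj U →₀ ℤ) →+ (Inj V →₀ ℤ) :=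
  Finsupp.mapDomain.addMonoidHom (rI h)

lemma rA_self {U : Opens X₀} (h : U ≤ U) (a : Inj U →₀ ℤ) : rA h a = a := by
  change Finsupp.mapDomain id a = a
  exact Finsupp.mapDomain_id

lemma rA_rA {U V W : Opens X₀} (h : U ≤ V) (h' : V ≤ W) (a : Inj U →₀ ℤ) :
    rA h' (rA h a) = rA (h.trans h') a := by
  change Finsupp.mapDomain (rI h') (Finsupp.mapDomain (rI h) a) = Finsupp.mapDomain _ a
  rw [← Finsupp.mapDomain_comp]
  rfl

lemma rA_surjective {U V : Opens X₀} (h : U ≤ V) (hs : Function.Surjective (rI h)) :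
    Function.Surjective (rA h) := Finsupp.mapDomain_surjective hs

lemma rA_injective {U V : Opens X₀} (h : U ≤ V) (hs : Function.Injective (rI h)) :
    Function.Injective (rA h) := Finsupp.mapDomain_injective hs

/-- The precosheaf `A`. -/
noncomputable def A : Opens X₀ ⥤ AddCommGrpCat.{0} where
  obj U := AddCommGrpCat.of (Inj U →₀ ℤ)
  map h := AddCommGrpCat.ofHom (rA (leOfHom h))
  map_id U := by
    ext1
    apply AddMonoidHom.ext
    intro a
    exact rA_self le_rfl a
  map_comp f g := by
    ext1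
    apply AddMonoidHom.ext
    intro a
    exact (rA_rA (leOfHom f) (leOfHom g) a).symm

/-- The groups of `B`: functions on the (empty or one-element) type of proofs of `∞ ∉ U`. -/
abbrev BObj (U : Opens X₀) : Type := PLift (inf ∉ U) → (Inj U →₀ ℤ)

/-- The maps of `B`. -/
noncomputable def rB {U V : Opens X₀} (h : U ≤ V) : BObj U →+ BObj V where
  toFun φ := fun x => rA h (φ ⟨fun h' => x.down (h h')⟩)
  map_zero' := by
    funext x
    simp
  map_add' φ ψ := by
    funext x
    simp

/-- The precosheaf `B`. -/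
noncomputable def B : Opens X₀ ⥤ AddCommGrpCat.{0} where
  obj U := AddCommGrpCat.of (BObj U)
  map h := AddCommGrpCat.ofHom (rB (leOfHom h))
  map_id _ := by
    ext1
    apply AddMonoidHom.ext
    intro φ
    funext x
    exact rA_self le_rfl _
  map_comp f g := by
    ext1
    apply AddMonoidHom.ext
    intro φ
    funext x
    exact (rA_rA (leOfHom f) (leOfHom g) _).symm

/-- The projection `A → B`. -/
noncomputable def proj : A ⟶ B where
  app _ := AddCommGrpCat.ofHom
    { toFun := fun a _ => a
      map_zero' := rfl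
      map_add' := fun _ _ => rfl }
  naturality _ _ _ := rfl

lemma proj_apply (U : Opens X₀) (a : A.obj U) : (proj.app U).hom a = fun _ => a := rfl

lemma A_subsingleton {U : Opens X₀} (h : ∀ a, pt a ∉ U) : Subsingleton (A.obj U) := by
  have := Inj_empty h
  change Subsingleton (Inj U →₀ ℤ)
  infer_instance

lemma B_subsingleton {U : Opens X₀} (h : ∀ a, pt a ∉ U) : Subsingleton (B.obj U) := by
  have := Inj_empty h
  change Subsingleton (PLift (inf ∉ U) → (Inj U →₀ ℤ))
  infer_instance

lemma B_subsingleton' {U : Opens X₀} (h : inf ∈ U) : Subsingleton (B.obj U) := by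
  change Subsingleton (PLift (inf ∉ U) → (Inj U →₀ ℤ))
  refine ⟨fun φ ψ => ?_⟩
  funext x
  exact absurd h x.down

/-- The choice of the pivot. -/
lemma exists_pivot {ι : Type} (U : ι → Opens X₀) (h : ∃ a, pt a ∈ ⨆ i, U i) :
    ∃ i₀, ∀ a, pt a ∈ (⨆ i, U i) → pt a ∈ U i₀ := by
  let S : Set Om := {a | pt a ∈ ⨆ i, U i}
  have hS : S.Nonempty := h
  have hm : WellFounded.min (wellFounded_lt (α := Om)) S hS ∈ S :=
    WellFounded.min_mem _ S hS
  have hm' : pt (WellFounded.min (wellFounded_lt (α := Om)) S hS) ∈ ⨆ i, U i := hm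
  rw [Opens.mem_iSup] at hm'
  obtain ⟨i₀, hi₀⟩ := hm'
  refine ⟨i₀, fun a ha => up (U i₀) hi₀ ?_⟩
  by_contra hlt
  exact WellFounded.not_lt_min (wellFounded_lt (α := Om)) S ha (not_le.1 hlt)

lemma A_cosheaf : IsCosheaf A := by
  apply isCosheaf_of_pivot
  intro ι U
  by_cases h : ∃ a, pt a ∈ ⨆ i, U i
  · right
    obtain ⟨i₀, hi₀⟩ := exists_pivot U h
    refine ⟨i₀, fun i => ?_, ?_⟩
    · refine rA_surjective inf_le_left (rI_bijective _ ?_).2
      intro a ha
      exact ⟨ha, hi₀ a (le_iSup U i ha)⟩
    · exact ⟨rA_injective _ (rI_bijective _ hi₀).1, rA_surjective _ (rI_bijective _ hi₀).2⟩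
  · left
    push Not at h
    exact ⟨A_subsingleton h, fun i => A_subsingleton fun a ha => h a (le_iSup U i ha)⟩

lemma rB_surjective {U V : Opens X₀} (h : U ≤ V) (hs : Function.Surjective (rI h)) :
    Function.Surjective (rB h) := by
  intro φ
  by_cases hV : inf ∈ V
  · refine ⟨0, ?_⟩
    funext x
    exact absurd hV x.down
  · obtain ⟨a, ha⟩ := rA_surjective h hs (φ ⟨hV⟩)
    refine ⟨fun _ => a, ?_⟩
    funext x
    exact ha

lemma B_cosheaf : IsCosheaf B := by
  apply isCosheaf_of_pivot
  intro ι U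
  by_cases h : ∃ a, pt a ∈ ⨆ i, U i
  · right
    by_cases hinf : inf ∈ ⨆ i, U i
    · have hinf' := hinf
      rw [Opens.mem_iSup] at hinf'
      obtain ⟨i₀, hi₀⟩ := hinf'
      refine ⟨i₀, fun i => ?_, ?_⟩
      · by_cases hi : ∃ a, pt a ∈ U i
        · refine rB_surjective inf_le_left (rI_surjective _ ?_)
          obtain ⟨a, ha⟩ := hi
          obtain ⟨b, hb⟩ := ne (U i₀) hi₀
          exact ⟨max a b, up _ ha (le_max_left _ _), up _ hb (le_max_right _ _)⟩
        · push Not at hi
          have := B_subsingleton hi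
          exact fun x => ⟨0, this.elim _ _⟩
      · have h1 := B_subsingleton' hi₀
        have h2 := B_subsingleton' hinf
        exact ⟨fun x y _ => h1.elim _ _, fun y => ⟨0, h2.elim _ _⟩⟩
    · obtain ⟨i₀, hi₀⟩ := exists_pivot U h
      refine ⟨i₀, fun i => ?_, ?_, ?_⟩
      · refine rB_surjective inf_le_left (rI_bijective _ ?_).2
        intro a ha
        exact ⟨ha, hi₀ a (le_iSup U i ha)⟩
      · intro φ ψ hφψ
        funext x
        have h1 := congrFun (show rB (le_iSup U i₀) φ = rB (le_iSup U i₀) ψ from hφψ) ⟨hinf⟩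
        exact rA_injective _ (rI_bijective _ hi₀).1 h1
      · exact rB_surjective _ (rI_bijective _ hi₀).2
  · left
    push Not at h
    exact ⟨B_subsingleton h, fun i => B_subsingleton fun a ha => h a (le_iSup U i ha)⟩

end Functors

section Limit

/-- A compatible family of chains over the neighbourhoods of `∞` is zero. -/
lemma lim_zero (U : Opens X₀) (hU : inf ∈ U)
    (a : ∀ V : Opens X₀, V ≤ U → inf ∈ V → (Inj V →₀ ℤ))
    (ha : ∀ (V W : Opens X₀) (hV : V ≤ U) (hW : W ≤ U) (hV' : inf ∈ V) (hW' : inf ∈ W)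
      (h : W ≤ V), a V hV hV' = rA h (a W hW hW')) : a U le_rfl hU = 0 := by
  classical
  by_contra hne
  -- supports
  have hsupp : ∀ (V W : Opens X₀) (hV : V ≤ U) (hW : W ≤ U) (hV' : inf ∈ V) (hW' : inf ∈ W)
      (h : W ≤ V), (a V hV hV').support ⊆ (a W hW hW').support.image (rI h) := by
    intro V W hV hW hV' hW' h
    rw [ha V W hV hW hV' hW' h]
    exact Finsupp.mapDomain_support
  have hcard : ∀ (V W : Opens X₀) (hV : V ≤ U) (hW : W ≤ U) (hV' : inf ∈ V) (hW' : inf ∈ W)
      (_ : W ≤ V), (a V hV hV').support.card ≤ (a W hW hW').support.card := by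
    intro V W hV hW hV' hW' h
    exact (Finset.card_le_card (hsupp V W hV hW hV' hW' h)).trans Finset.card_image_le
  -- boundedness
  have hbdd : ∃ N, ∀ (V : Opens X₀) (hV : V ≤ U) (hV' : inf ∈ V), (a V hV hV').support.card ≤ N := by
    by_contra hcon
    push Not at hcon
    choose V hV hV' hN using hcon
    choose g hg using fun n => ne (V n) (hV' n)
    obtain ⟨b, hb⟩ := exists_bound g
    have hle : ∀ n, nb b ≤ V n := by
      intro n x
      refine pt_cases (P := fun x => x ∈ nb b → x ∈ V n) (fun _ => hV' n) (fun c hc => ?_) x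
      exact up (V n) (hg n) ((hb n).trans (pt_mem_nb.1 hc))
    have h1 := hcard (V _) (nb b) (hV _) ((hle 0).trans (hV 0)) (hV' _) (inf_mem_nb b) (hle
      ((a (nb b) ((hle 0).trans (hV 0)) (inf_mem_nb b)).support.card))
    exact absurd (hN _) (not_lt.2 h1)
  -- a neighbourhood with maximal support
  obtain ⟨V₀, hV₀, hV₀', hmax⟩ : ∃ (V₀ : Opens X₀) (hV₀ : V₀ ≤ U) (hV₀' : inf ∈ V₀),
      ∀ (V : Opens X₀) (hV : V ≤ U) (hV' : inf ∈ V),
        (a V hV hV').support.card ≤ (a V₀ hV₀ hV₀').support.card := by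
    let S : Set ℕ := {n | ∃ (V : Opens X₀) (hV : V ≤ U) (hV' : inf ∈ V),
      (a V hV hV').support.card = n}
    obtain ⟨N, hN⟩ := hbdd
    have hfin : S.Finite := (Set.finite_Iic N).subset (by
      rintro _ ⟨V, hV, hV', rfl⟩
      exact hN V hV hV')
    have hnon : S.Nonempty := ⟨_, U, le_rfl, hU, rfl⟩
    obtain ⟨m, ⟨V₀, hV₀, hV₀', h1⟩, h2⟩ := hfin.exists_maximal hnon
    refine ⟨V₀, hV₀, hV₀', fun V hV hV' => ?_⟩
    rw [h1]
    by_contra h3
    have h4 := h2 ⟨V, hV, hV', rfl⟩ (not_le.1 h3).le
    exact h3 h4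
  -- restriction is bijective on supports
  have hinj : ∀ (V : Opens X₀) (hV : V ≤ V₀) (hV' : inf ∈ V),
      Set.InjOn (rI hV) ((a V (hV.trans hV₀) hV').support : Set (Inj V)) := by
    intro V hV hV'
    rw [← Finset.card_image_iff]
    apply le_antisymm Finset.card_image_le
    exact (hmax V (hV.trans hV₀) hV').trans
      (Finset.card_le_card (hsupp V₀ V hV₀ (hV.trans hV₀) hV₀' hV' hV))
  have hne₀ : (a V₀ hV₀ hV₀').support.Nonempty := by
    rw [← Finset.card_pos]
    have h1 : 0 < (a U le_rfl hU).support.card := by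
      rw [Finset.card_pos]
      exact Finsupp.support_nonempty_iff.2 hne
    exact h1.trans_le (hmax U le_rfl hU)
  obtain ⟨f₀, hf₀⟩ := hne₀
  have hex : ∀ (V : Opens X₀) (hV : V ≤ V₀) (hV' : inf ∈ V),
      ∃ f ∈ (a V (hV.trans hV₀) hV').support, rI hV f = f₀ := by
    intro V hV hV'
    have h1 := hsupp V₀ V hV₀ (hV.trans hV₀) hV₀' hV' hV hf₀
    rw [Finset.mem_image] at h1
    exact h1
  choose f hf hf' using hex
  have hcomp : ∀ (V W : Opens X₀) (hV : V ≤ V₀) (hW : W ≤ V₀) (hV' : inf ∈ V) (hW' : inf ∈ W)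
      (h : W ≤ V), rI h (f W hW hW') = f V hV hV' := by
    intro V W hV hW hV' hW' h
    have h1 := hsupp V W (hV.trans hV₀) (hW.trans hV₀) hV' hW' h (hf V hV hV')
    rw [Finset.mem_image] at h1
    obtain ⟨g, hg, hg'⟩ := h1
    have h2 : g = f W hW hW' := by
      apply hinj W hW hW' hg (hf W hW hW')
      rw [hf', ← hf' V hV hV', ← hg', rI_rI]
    rw [← h2, hg']
  -- the injection
  obtain ⟨c₀, hc₀⟩ := ne V₀ hV₀'
  have hnb : ∀ b, c₀ ≤ b → nb b ≤ V₀ := by
    intro b hb x
    refine pt_cases (P := fun x => x ∈ nb b → x ∈ V₀) (fun _ => hV₀') (fun c hc => ?_) x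
    exact up V₀ hc₀ (hb.trans (pt_mem_nb.1 hc))
  have hb : ∀ x : Om, ∃ b, x < b ∧ c₀ ≤ b := by
    intro x
    obtain ⟨b, hb⟩ := exists_gt' (max x c₀)
    exact ⟨b, (le_max_left _ _).trans_lt hb, ((le_max_right _ _).trans_lt hb).le⟩
  choose b hb1 hb2 using hb
  have hnot : ∀ {x c : Om}, x < c → pt x ∉ nb c := by
    intro x c hx h
    exact absurd (pt_mem_nb.1 h) (not_le.2 hx)
  let F : Om → ℕ := fun x => (f (nb (b x)) (hnb _ (hb2 x)) (inf_mem_nb _)).1 ⟨x, hnot (hb1 x)⟩
  have hF : ∀ (x c : Om) (hx : x < c) (hc : c₀ ≤ c) (_ : b x ≤ c),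
      F x = (f (nb c) (hnb _ hc) (inf_mem_nb _)).1 ⟨x, hnot hx⟩ := by
    intro x c hx hc hbc
    have hle : nb c ≤ nb (b x) := by
      intro y
      refine pt_cases (P := fun y => y ∈ nb c → y ∈ nb (b x)) (fun _ => inf_mem_nb _)
        (fun d hd => ?_) y
      exact pt_mem_nb.2 (hbc.trans (pt_mem_nb.1 hd))
    have h1 := hcomp (nb (b x)) (nb c) (hnb _ (hb2 x)) (hnb _ hc) (inf_mem_nb _) (inf_mem_nb _) hle
    have h2 := congrArg (fun g : Inj (nb (b x)) => g.1 ⟨x, hnot (hb1 x)⟩) h1
    exact h2.symm
  have hFinj : Function.Injective F := by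
    intro x y hxy
    have h1 := hF x (max (b x) (b y)) ((hb1 x).trans_le (le_max_left _ _))
      ((hb2 x).trans (le_max_left _ _)) (le_max_left _ _)
    have h2 := hF y (max (b x) (b y)) ((hb1 y).trans_le (le_max_right _ _))
      ((hb2 x).trans (le_max_left _ _)) (le_max_right _ _)
    rw [h1, h2] at hxy
    have h3 := (f _ _ _).2.1 hxy
    exact congrArg (fun z => z.1) h3
  apply not_countable
  rw [Set.countable_univ_iff]
  exact hFinj.countable

end Limit

section Main

/-- The object of the category of cosheaves given by `A`. -/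
noncomputable def A' : Cosheaf X₀ := ⟨A, A_cosheaf⟩

/-- The object of the category of cosheaves given by `B`. -/
noncomputable def B' : Cosheaf X₀ := ⟨B, B_cosheaf⟩

/-- The projection as a morphism of cosheaves. -/
noncomputable def proj' : A' ⟶ B' := ObjectProperty.homMk proj

instance : Epi proj' := by
  constructor
  intro C g h hgh
  apply ObjectProperty.hom_ext
  ext U φ
  have h1 : ∀ a : A.obj U, (g.hom.app U).hom ((proj.app U).hom a) =
      (h.hom.app U).hom ((proj.app U).hom a) := by
    intro a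
    have h2 := congrArg (fun k : A' ⟶ C => (k.hom.app U).hom a) hgh
    exact h2
  have h3 : ∃ a : A.obj U, (proj.app U).hom a = φ := by
    by_cases hU : inf ∈ U
    · exact ⟨0, (B_subsingleton' hU).elim _ _⟩
    · refine ⟨(show PLift (inf ∉ U) → (Inj U →₀ ℤ) from φ) ⟨hU⟩, ?_⟩
      funext x
      rfl
  obtain ⟨a, rfl⟩ := h3
  exact h1 a

instance : Mono proj' := by
  constructor
  intro C g h hgh
  apply ObjectProperty.hom_ext
  ext U c
  have hC := C.property
  -- the difference
  let d : ∀ V : Opens X₀, C.obj.obj V → (Inj V →₀ ℤ) := fun V c =>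
    (show Inj V →₀ ℤ from (g.hom.app V).hom c) - (show Inj V →₀ ℤ from (h.hom.app V).hom c)
  have hd_add : ∀ V (x y : C.obj.obj V), d V (x + y) = d V x + d V y := by
    intro V x y
    have h1 : (show Inj V →₀ ℤ from (g.hom.app V).hom (x + y)) =
        (show Inj V →₀ ℤ from (g.hom.app V).hom x) + (show Inj V →₀ ℤ from (g.hom.app V).hom y) :=
      map_add _ _ _
    have h2 : (show Inj V →₀ ℤ from (h.hom.app V).hom (x + y)) =
        (show Inj V →₀ ℤ from (h.hom.app V).hom x) + (show Inj V →₀ ℤ from (h.hom.app V).hom y) :=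
      map_add _ _ _
    change (show Inj V →₀ ℤ from (g.hom.app V).hom (x + y)) -
      (show Inj V →₀ ℤ from (h.hom.app V).hom (x + y)) = _
    rw [h1, h2]
    exact add_sub_add_comm _ _ _ _
  have hd_nat : ∀ {V W : Opens X₀} (hVW : V ≤ W) (x : C.obj.obj V),
      d W (res C.obj hVW x) = rA hVW (d V x) := by
    intro V W hVW x
    have h1 : (g.hom.app W).hom (res C.obj hVW x) = rA hVW ((g.hom.app V).hom x) := by
      have := congrArg (fun k => k.hom x) (g.hom.naturality (homOfLE hVW))
      exact this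
    have h2 : (h.hom.app W).hom (res C.obj hVW x) = rA hVW ((h.hom.app V).hom x) := by
      have := congrArg (fun k => k.hom x) (h.hom.naturality (homOfLE hVW))
      exact this
    change (show Inj W →₀ ℤ from (g.hom.app W).hom (res C.obj hVW x)) -
      (show Inj W →₀ ℤ from (h.hom.app W).hom (res C.obj hVW x)) = rA hVW (_ - _)
    rw [h1, h2, map_sub]
  have hd_zero : ∀ {V : Opens X₀}, inf ∉ V → ∀ x, d V x = 0 := by
    intro V hV x
    have h1 := congrArg (fun k : C ⟶ B' => (k.hom.app V).hom x) hgh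
    have h2 := congrFun (show (fun _ => (g.hom.app V).hom x : BObj V) =
      (fun _ => (h.hom.app V).hom x : BObj V) from h1) ⟨hV⟩
    exact sub_eq_zero.2 h2
  have main : d U c = 0 := by
    by_cases hU : inf ∈ U
    · -- decompose `c` over a smaller neighbourhood
      have hcov : ∀ V : Opens X₀, inf ∈ V → U ≤ V ⊔ fin U := by
        intro V hV x
        refine pt_cases (P := fun x => x ∈ U → x ∈ V ⊔ fin U) (fun _ => Or.inl hV)
          (fun e he => Or.inr (pt_mem_fin.2 he)) x
      have hex : ∀ (V : Opens X₀) (hV : V ≤ U) (hV' : inf ∈ V), ∃ y : Inj V →₀ ℤ,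
          ∀ (c₁ : C.obj.obj V) (c₂ : C.obj.obj (fin U)),
            c = res C.obj hV c₁ + res C.obj (fin_le U) c₂ → d V c₁ = y := by
        intro V hV hV'
        obtain ⟨hs, hk⟩ := two_opens hC hV (fin_le U) (hcov V hV')
        obtain ⟨c₁, c₂, hc⟩ := hs c
        refine ⟨d V c₁, fun e₁ e₂ he => ?_⟩
        have h1 : res C.obj hV (e₁ - c₁) + res C.obj (fin_le U) (e₂ - c₂) = 0 := by
          have h2 : res C.obj hV e₁ + res C.obj (fin_le U) e₂ =
            res C.obj hV c₁ + res C.obj (fin_le U) c₂ := he.symm.trans hc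
          rw [map_sub, map_sub]
          calc res C.obj hV e₁ - res C.obj hV c₁ +
              (res C.obj (fin_le U) e₂ - res C.obj (fin_le U) c₂) =
              (res C.obj hV e₁ + res C.obj (fin_le U) e₂) -
              (res C.obj hV c₁ + res C.obj (fin_le U) c₂) := by abel
            _ = 0 := by rw [h2, sub_self]
        obtain ⟨w, hw⟩ := hk _ _ h1
        have h3 : e₁ = c₁ + res C.obj inf_le_left w := by rw [← hw]; abel
        rw [h3, hd_add, hd_nat, hd_zero (V := V ⊓ fin U) (fun h' => inf_notMem_fin U h'.2), map_zero,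
          add_zero]
      choose y hy using hex
      have h1 := lim_zero U hU y ?_
      · have h2 := hy U le_rfl hU c 0 (by
          rw [map_zero, add_zero]
          have := C.obj.map_id U
          have h3 := congrArg (fun k => k.hom c) this
          exact h3.symm)
        rw [h2, h1]
      · intro V W hV hW hV' hW' hWV
        obtain ⟨hs, -⟩ := two_opens hC hW (fin_le U) (hcov W hW')
        obtain ⟨c₁, c₂, hc⟩ := hs c
        rw [← hy W hW hW' c₁ c₂ hc, ← hd_nat hWV]
        refine (hy V hV hV' (res C.obj hWV c₁) c₂ ?_).symm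
        rw [res_res]
        exact hc
    · exact hd_zero hU c
  exact sub_eq_zero.1 main

lemma not_isIso : ¬ IsIso proj' := by
  intro hiso
  have h1 : IsIso ((ObjectProperty.ι _).map proj') := inferInstance
  have h2 : IsIso proj := h1
  have h3 : IsIso (proj.app ⊤) := inferInstance
  have h4 : Function.Injective (proj.app ⊤).hom := by
    intro x y hxy
    have h5 : ∀ z, (inv (proj.app ⊤)).hom ((proj.app ⊤).hom z) = z := by
      intro z
      have := congrArg (fun k => k.hom z) (IsIso.hom_inv_id (proj.app ⊤))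
      exact this
    rw [← h5 x, ← h5 y, hxy]
  have h6 : Subsingleton (A.obj ⊤) := by
    refine ⟨fun x y => h4 ?_⟩
    exact (B_subsingleton' (U := ⊤) trivial).elim _ _
  have hE : IsEmpty {a : Om // pt a ∉ (⊤ : Opens X₀)} := ⟨fun a => a.2 trivial⟩
  let f : Inj ⊤ := ⟨fun a => hE.elim a, fun a => hE.elim a, by
    rw [Set.range_eq_empty]
    simpa using Set.infinite_univ⟩
  have h7 : (Finsupp.single f (1 : ℤ)) = (0 : Inj ⊤ →₀ ℤ) := h6.elim _ _
  rw [Finsupp.single_eq_zero] at h7
  exact one_ne_zero h7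

lemma balanced_of_abelian (C : Type 1) [Category.{0} C] (_ : Abelian C) : Balanced C :=
  inferInstance

/-- There is a topological space `X` such that the category of cosheaves of abelian groups on `X`
is not an abelian category. -/
theorem result : ∃ X : TopCat.{0}, IsEmpty (Abelian (Cosheaf X)) := by
  refine ⟨X₀, ⟨fun inst => ?_⟩⟩
  have hb : Balanced (Cosheaf X₀) := balanced_of_abelian _ inst
  exact not_isIso (isIso_of_mono_of_epi proj')

end Main

end Pool.Agent.Results.MP_c909fd_al.CosheavesNotAbelian
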